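import Mathlib
import Pool.Agent.U845.PA.Glob
import Pool.Agent.U115.GE.Dens
import Pool.Agent.U115.GE.Ex

/-!
# The parity conjecture in classes of quadratic twists

Let `E : y² = x³ + a x² + b x` be an elliptic curve over `ℚ` with a rational point of order two (`b` and
`a² - 4 b` not squares) for which the two Selmer groups of the isogeny of degree two are as small as
possible (`#Sel · #Sel' = 4`) and whose root number is `1`. In the class of the quadratic twists `E_D` of
helper115's theorem `MP_e23604_nt.ExactProportionTwoIsogeny` (`D` squarefree, `1` modulo `8`, a square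
modulo the bad primes, every prime divisor of `D` is split or inert):

* the root number of every twist `E_D` is the one of `E`;
* the parity conjecture `(-1)^{rank E_D(ℚ)} = w(E_D)` holds for all the `D` with `E_D(ℚ)` finite and
  `Ш(E_D)[2^∞] = 0`, and the proportion of these `D` in the class tends to
  `∏_{i ≥ 0} (1 - 2^{-(2i+1)}) = 0.4194...`.

The curve `y² = x³ + 13 x² + 128 x` (of conductor `14`) is an example: all the conditions, also the one on
the root number, are proved for it.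

The root number is the product of the local ones. Local root numbers are not in Mathlib; we treat them by
their properties: `LocalRootNumber p w` lists the six well known properties of the local root number
`w(E/ℚ_p)` which are used (sign, isomorphic curves, good reduction, split and nonsplit multiplicative
reduction, ramified quadratic twist of good reduction for odd `p`). The theorem holds for *every* system
of functions with these properties, in particular for the local root numbers. (It is proved that the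
properties do not contradict each other.)

The law of the twists is from `Pool/Agent/U115/GE` (helper115, with helper295, helper439, helper2,
helper643, helper674, helper234, helper158, helper998, helper798, helper796, helper739). The root numbers
are in `Pool/Agent/U845/PA` (helper845).
-/

set_option autoImplicit false

open scoped Classical

namespace Pool.Agent.Results.MP_577099_nt.ParityInTwistClasses

open WeierstrassCurve
open Pool.Agent.TH841.NF.D (Sha)

section local_root_numbers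

/-- the coefficients of the equation are `p`-adic integers -/
structure Integral {p : ℕ} [Fact p.Prime] (W : WeierstrassCurve ℚ_[p]) : Prop where
  a₁ : ‖W.a₁‖ ≤ 1
  a₂ : ‖W.a₂‖ ≤ 1
  a₃ : ‖W.a₃‖ ≤ 1
  a₄ : ‖W.a₄‖ ≤ 1
  a₆ : ‖W.a₆‖ ≤ 1

/-- an equation with good reduction -/
def Good {p : ℕ} [Fact p.Prime] (W : WeierstrassCurve ℚ_[p]) : Prop := Integral W ∧ ‖W.Δ‖ = 1

/-- an equation whose reduction has a node at the origin -/
structure Node {p : ℕ} [Fact p.Prime] (W : WeierstrassCurve ℚ_[p]) : Prop where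
  int : Integral W
  a₃ : ‖W.a₃‖ < 1
  a₄ : ‖W.a₄‖ < 1
  a₆ : ‖W.a₆‖ < 1
  b₂ : ‖W.b₂‖ = 1

/-- the tangents at the node, the zeros of `α² + a₁ α - a₂`, are defined over the residue field -/
def Tangents {p : ℕ} [Fact p.Prime] (W : WeierstrassCurve ℚ_[p]) : Prop :=
  ∃ α : ℚ_[p], ‖α‖ ≤ 1 ∧ ‖α ^ 2 + W.a₁ * α - W.a₂‖ < 1

/-- the quadratic twist by `d` -/
def tw {K : Type} [Field K] (W : WeierstrassCurve K) (d : K) : WeierstrassCurve K :=
  ⟨0, d * W.b₂ / 4, 0, d ^ 2 * W.b₄ / 2, d ^ 3 * W.b₆ / 4⟩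

/-- `w` has the following properties of the local root number `w(E/ℚ_p)`: it is `1` or `-1`, it is the
same for isomorphic curves, it is `1` for good reduction, `-1` for split multiplicative reduction, `1` for
nonsplit multiplicative reduction, and `(-1 / p)` for the ramified quadratic twists of the curves with
good reduction if `p` is odd -/
structure LocalRootNumber (p : ℕ) [Fact p.Prime] (w : WeierstrassCurve ℚ_[p] → ℤ) : Prop where
  sign : ∀ W, w W = 1 ∨ w W = -1
  iso : ∀ (C : VariableChange ℚ_[p]) (W : WeierstrassCurve ℚ_[p]), w (C • W) = w W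
  good : ∀ W, Good W → w W = 1
  split : ∀ W, W.Δ ≠ 0 → Node W → Tangents W → w W = -1
  nonsplit : ∀ W, W.Δ ≠ 0 → Node W → ¬ Tangents W → w W = 1
  twist : p ≠ 2 → ∀ W, Good W → ∀ d : ℚ_[p], ‖d‖ = (p : ℝ)⁻¹ →
    w (tw W d) = if p % 4 = 1 then 1 else -1

/-- the root number of `E`: the product of the local root numbers and of `w(E/ℝ) = -1` -/
noncomputable def rootNumber (w : ∀ (p : ℕ) [Fact p.Prime], WeierstrassCurve ℚ_[p] → ℤ)
    (E : WeierstrassCurve ℚ) : ℤ :=
  - ∏ᶠ p : Nat.Primes, haveI : Fact (p : ℕ).Prime := ⟨p.2⟩; w p (E.map (algebraMap ℚ ℚ_[p]))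

theorem integral_iff {p : ℕ} [Fact p.Prime] (W : WeierstrassCurve ℚ_[p]) :
    Integral W ↔ Pool.Agent.U845.PA.Integral W :=
  ⟨fun h => ⟨h.1, h.2, h.3, h.4, h.5⟩, fun h => ⟨h.1, h.2, h.3, h.4, h.5⟩⟩

theorem good_iff {p : ℕ} [Fact p.Prime] (W : WeierstrassCurve ℚ_[p]) :
    Good W ↔ Pool.Agent.U845.PA.Good W := and_congr_left fun _ => integral_iff W

theorem node_iff {p : ℕ} [Fact p.Prime] (W : WeierstrassCurve ℚ_[p]) :
    Node W ↔ Pool.Agent.U845.PA.Node W :=
  ⟨fun h => ⟨(integral_iff W).1 h.1, h.2, h.3, h.4, h.5⟩,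
    fun h => ⟨(integral_iff W).2 h.1, h.2, h.3, h.4, h.5⟩⟩

theorem local_iff {p : ℕ} [Fact p.Prime] (w : WeierstrassCurve ℚ_[p] → ℤ) :
    LocalRootNumber p w ↔ Pool.Agent.U845.PA.LocalRootNumber p w :=
  ⟨fun h => ⟨h.1, h.2, fun W hW => h.3 W ((good_iff W).2 hW),
    fun W h1 h2 h3 => h.4 W h1 ((node_iff W).2 h2) h3,
    fun W h1 h2 h3 => h.5 W h1 ((node_iff W).2 h2) h3,
    fun h1 W hW d hd => h.6 h1 W ((good_iff W).2 hW) d hd⟩,
  fun h => ⟨h.1, h.2, fun W hW => h.3 W ((good_iff W).1 hW),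
    fun W h1 h2 h3 => h.4 W h1 ((node_iff W).1 h2) h3,
    fun W h1 h2 h3 => h.5 W h1 ((node_iff W).1 h2) h3,
    fun h1 W hW d hd => h.6 h1 W ((good_iff W).1 hW) d hd⟩⟩

end local_root_numbers

/-- the curve `y² = x³ + A x² + B x` over `ℚ` -/
def E (A B : ℤ) : WeierstrassCurve ℚ := ⟨0, (A : ℚ), 0, (B : ℚ), 0⟩

/-- the rank of the group of the rational points -/
noncomputable def rank (W : WeierstrassCurve ℚ) : ℕ := Module.finrank ℤ W.toAffine.Point

/-- the group of the rational points is finite and `Ш[2^∞] = 0` -/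
def TrivialTwo (W : WeierstrassCurve ℚ) : Prop :=
  Finite W.toAffine.Point ∧ ∀ (n : ℕ) (x : Sha W), 2 ^ n • x = 0 → x = 0

/-- the quartic of `d` has a nontrivial point over `K` -/
def Quartic (K : Type) [Field K] (a b d : ℤ) : Prop :=
  ∃ N M e : K, (M ≠ 0 ∨ e ≠ 0) ∧
    N ^ 2 = (d : K) * M ^ 4 + (a : K) * M ^ 2 * e ^ 2 + (b : K) / (d : K) * e ^ 4

/-- the Selmer group of the isogeny of degree two of `y² = x³ + a x² + b x` -/
def Sel (a b : ℤ) : Set ℤ :=
  {d | Squarefree d ∧ Quartic ℝ a b d ∧ ∀ (p : ℕ) [Fact p.Prime], Quartic ℚ_[p] a b d}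

/-- `n` is `1` modulo `8` and a nonzero square modulo the odd primes dividing `b (a² - 4 b)` -/
def Res (a b : ℤ) (n : ℕ) : Prop := n % 8 = 1 ∧ ∀ l : ℕ, l.Prime → l ≠ 2 →
  (l : ℤ) ∣ b * (a ^ 2 - 4 * b) → ¬ l ∣ n ∧ IsSquare (n : ZMod l)

/-- the inert primes -/
def Inert (a b : ℤ) (q : ℕ) : Prop := q ≠ 2 ∧ ¬ IsSquare (b : ZMod q) ∧
  ¬ IsSquare ((a ^ 2 - 4 * b : ℤ) : ZMod q)

/-- the class of the numbers `D` -/
def Class (a b : ℤ) (D : ℕ) : Prop := Squarefree D ∧ Res a b D ∧
  ∀ p ∈ D.primeFactors, Res a b p ∨ Inert a b p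

/-- the proportion of the `D` of the class with the property `P` tends to `γ` -/
def Proportion (a b : ℤ) (P : ℕ → Prop) (γ : ℝ) : Prop :=
  Filter.Tendsto (fun X : ℕ =>
    (((Finset.Icc 1 X).filter fun D => Class a b D ∧ P D).card : ℝ) /
      (((Finset.Icc 1 X).filter fun D => Class a b D).card : ℝ)) Filter.atTop (nhds γ)

theorem class_iff (a b : ℤ) (D : ℕ) : Class a b D ↔ Pool.Agent.U115.GE.Class a b D := by
  refine and_congr_right fun _ => and_congr_right fun _ => forall₂_congr fun p hp => ?_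
  have hpp := Nat.prime_of_mem_primeFactors hp
  exact or_congr ⟨fun h => ⟨hpp, h⟩, fun h => h.2⟩ ⟨fun h => ⟨hpp, h⟩, fun h => h.2⟩

theorem root_eq (w : ∀ (p : ℕ) [Fact p.Prime], WeierstrassCurve ℚ_[p] → ℤ) (A B : ℤ) :
    rootNumber w (E A B) = Pool.Agent.U845.PA.rootNumber w (Pool.Agent.U845.PA.EC ℚ A B) := rfl

/-- the twists with `E_D(ℚ)` finite and `Ш(E_D)[2^∞] = 0` -/
theorem tr_iff {a b : ℤ} (nb : ¬ IsSquare b) (nc : ¬ IsSquare (a ^ 2 - 4 * b))
    (h4 : (Sel a b).ncard * (Sel (-2 * a) (a ^ 2 - 4 * b)).ncard = 4) {D : ℕ} (h : Class a b D) :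
    TrivialTwo (E (a * D) (b * D ^ 2)) ↔ Pool.Agent.U115.GE.cork a b D = 0 := by
  have hb0 : b ≠ 0 := by
    rintro rfl
    exact nb ⟨0, by norm_num⟩
  have hc0 : a ^ 2 - 4 * b ≠ 0 := by
    intro h0
    exact nc (by rw [h0]; exact ⟨0, by norm_num⟩)
  have hG := Pool.Agent.U739.GE.t_GOOD
  have hBd := Pool.Agent.U796.GE.t_BND
  have h' := (class_iff a b D).1 h
  have hH := Pool.Agent.U115.GE.class_hg hb0 hc0 h'
  have hk := Pool.Agent.U115.GE.class_kap hb0 hc0 h'
  have hD := Pool.Agent.U115.GE.prod_eq (a := a) (b := b) h.1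
  have k1 : 2 ^ Pool.Agent.U115.GE.cork a b D = 1 ↔ Pool.Agent.U115.GE.cork a b D = 0 := by
    constructor
    · intro h2
      by_contra h3
      have := Nat.one_lt_two_pow h3
      omega
    · intro h2
      rw [h2, pow_zero]
  have h1 := hH.iff hG hBd nb nc h4 hD
  rw [hk, k1, Pool.Agent.U115.GE.twE_eq] at h1
  exact h1

/-- the rank of a finite group of points -/
theorem rank_fin (W : WeierstrassCurve ℚ) (h : Finite W.toAffine.Point) : rank W = 0 :=
  (Pool.Agent.U115.XP.fin_gen (AddGroup.fg_of_finite (G := W.toAffine.Point))).2 h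

/-- the density -/
theorem prop_of {a b : ℤ} (nb : ¬ IsSquare b) (nc : ¬ IsSquare (a ^ 2 - 4 * b)) {P : ℕ → Prop}
    (hP : ∀ D : ℕ, Class a b D → (Pool.Agent.U115.GE.cork a b D = 0 ↔ P D)) :
    Proportion a b P (∏' i : ℕ, (1 - (1 / 2 : ℝ) ^ (2 * i + 1))) := by
  refine (Pool.Agent.U115.GE.dens nb nc).congr fun X =>
    congrArg₂ (fun a b : ℕ => (a : ℝ) / (b : ℝ)) ?_ ?_
  · refine congrArg Finset.card (Finset.ext fun D => ?_)
    rw [Finset.mem_filter, Finset.mem_filter]
    refine and_congr_right fun _ => ?_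
    rw [← class_iff]
    exact and_congr_right fun h => hP D h
  · refine congrArg Finset.card (Finset.ext fun D => ?_)
    rw [Finset.mem_filter, Finset.mem_filter, class_iff]

/-- **Theorem.** There are functions with the properties `LocalRootNumber`. For every system `w` of such
functions (in particular for the local root numbers):
(1) for all integers `a`, `b` with `b (a² - 4 b) ≠ 0`, only finitely many `w_p` are not `1` at
`E : y² = x³ + a x² + b x`, and the root number of the twist `E_D : y² = x³ + a D x² + b D² x` is the one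
of `E` for all the `D` of the class;
(2) if neither `b` nor `a² - 4 b` is a square, `#Sel · #Sel' = 4` and the root number of `E` is `1`, then
the proportion of the `D` of the class for which `E_D(ℚ)` is finite, `Ш(E_D)[2^∞] = 0` and the parity
conjecture `(-1)^{rank E_D} = w(E_D)` holds tends to `∏_{i ≥ 0} (1 - 2^{-(2i+1)})`; in the class, the
first two properties imply the third one;
(3) all the conditions of (2) hold for `a = 13`, `b = 128`.
The number is between `0.4194` and `0.4195`. -/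
theorem result :
    (∀ (p : ℕ) [Fact p.Prime], ∃ w : WeierstrassCurve ℚ_[p] → ℤ, LocalRootNumber p w) ∧
    (∀ w : ∀ (p : ℕ) [Fact p.Prime], WeierstrassCurve ℚ_[p] → ℤ,
      (∀ (p : ℕ) [Fact p.Prime], LocalRootNumber p (w p)) →
      (∀ a b : ℤ, b ≠ 0 → a ^ 2 - 4 * b ≠ 0 →
        {p : Nat.Primes | haveI : Fact (p : ℕ).Prime := ⟨p.2⟩;
          w p ((E a b).map (algebraMap ℚ ℚ_[p])) ≠ 1}.Finite ∧
        ∀ D : ℕ, Class a b D → rootNumber w (E (a * D) (b * D ^ 2)) = rootNumber w (E a b)) ∧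
      (∀ a b : ℤ, ¬ IsSquare b → ¬ IsSquare (a ^ 2 - 4 * b) →
        (Sel a b).ncard * (Sel (-2 * a) (a ^ 2 - 4 * b)).ncard = 4 → rootNumber w (E a b) = 1 →
        (∀ D : ℕ, Class a b D → TrivialTwo (E (a * D) (b * D ^ 2)) →
          (-1) ^ rank (E (a * D) (b * D ^ 2)) = rootNumber w (E (a * D) (b * D ^ 2))) ∧
        Proportion a b (fun D => TrivialTwo (E (a * D) (b * D ^ 2)) ∧
          (-1) ^ rank (E (a * D) (b * D ^ 2)) = rootNumber w (E (a * D) (b * D ^ 2)))
          (∏' i : ℕ, (1 - (1 / 2 : ℝ) ^ (2 * i + 1)))) ∧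
      rootNumber w (E 13 128) = 1) ∧
    ¬ IsSquare (128 : ℤ) ∧ ¬ IsSquare (13 ^ 2 - 4 * 128 : ℤ) ∧
    (Sel 13 128).ncard * (Sel (-2 * 13) (13 ^ 2 - 4 * 128)).ncard = 4 ∧
    0.4194 < ∏' i : ℕ, (1 - (1 / 2 : ℝ) ^ (2 * i + 1)) ∧
    ∏' i : ℕ, (1 - (1 / 2 : ℝ) ^ (2 * i + 1)) < 0.4195 := by
  obtain ⟨-, -, -, hc1, hc2⟩ := Pool.Agent.Y948.CQ.t_C2
  obtain ⟨e1, e2⟩ := Pool.Agent.U115.GE.sel_X14
  refine ⟨fun p _ => ⟨Pool.Agent.U845.PA.w0 p, (local_iff _).2
    (Pool.Agent.U845.PA.exists_local p)⟩, ?_, ?_, ?_, ?_, hc1, hc2⟩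
  · intro w hw
    have hw' : ∀ (p : ℕ) [Fact p.Prime], Pool.Agent.U845.PA.LocalRootNumber p (w p) :=
      fun p _ => (local_iff _).1 (hw p)
    have hroot : ∀ a b : ℤ, b ≠ 0 → a ^ 2 - 4 * b ≠ 0 → ∀ D : ℕ, Class a b D →
        rootNumber w (E (a * D) (b * D ^ 2)) = rootNumber w (E a b) := by
      intro a b hb hc D h
      rw [root_eq, root_eq]
      exact Pool.Agent.U845.PA.root_twist hw' hb hc ((class_iff a b D).1 h)
    refine ⟨fun a b hb hc => ⟨Pool.Agent.U845.PA.fin_supp hw' hb hc, hroot a b hb hc⟩, ?_, ?_⟩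
    · intro a b nb nc h4 h1
      have hb0 : b ≠ 0 := by
        rintro rfl
        exact nb ⟨0, by norm_num⟩
      have hc0 : a ^ 2 - 4 * b ≠ 0 := by
        intro h0
        exact nc (by rw [h0]; exact ⟨0, by norm_num⟩)
      have hpar : ∀ D : ℕ, Class a b D → TrivialTwo (E (a * D) (b * D ^ 2)) →
          (-1) ^ rank (E (a * D) (b * D ^ 2)) = rootNumber w (E (a * D) (b * D ^ 2)) := by
        intro D h h2
        rw [rank_fin _ h2.1, pow_zero, hroot a b hb0 hc0 D h, h1]
      refine ⟨hpar, prop_of nb nc fun D h => ?_⟩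
      rw [← tr_iff nb nc h4 h]
      exact ⟨fun h2 => ⟨h2, hpar D h h2⟩, fun h2 => h2.1⟩
    · rw [root_eq]
      exact Pool.Agent.U845.PA.root_X14 hw'
  · rintro ⟨s, hs⟩
    have h1 : s ≤ 11 := by nlinarith
    have h2 : -11 ≤ s := by nlinarith
    interval_cases s <;> omega
  · rintro ⟨s, hs⟩
    nlinarith [mul_self_nonneg s]
  · have e1' : (Sel 13 128).ncard = 2 := e1
    have e2' : (Sel (-2 * 13) (13 ^ 2 - 4 * 128)).ncard = 2 := e2
    rw [e1', e2']

end Pool.Agent.Results.MP_577099_nt.ParityInTwistClasses
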