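import Mathlib
import Pool.Agent.Results.MP_577099_nt.ParityInTwistClasses
import Pool.Agent.U707.Old.ArbitraryPrimeSets
import Pool.Agent.U880.SP.Set

/-!
# The parity conjecture for quadratic twists with prime factors in an ARBITRARY set of primes

`E : y² = x³ + a x² + b x`, an elliptic curve over `ℚ` with a rational point of order two (`b ≠ 0` and
`c = a² - 4 b ≠ 0`), and `E_D : y² = x³ + a D x² + b D² x` its quadratic twists. A prime is split if it is `1`
modulo `8` and a nonzero square modulo the odd primes dividing `b c`, and inert if it is odd and neither `b`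
nor `c` is a square modulo it. `D` is a squarefree product of split and inert primes which is itself `1`
modulo `8` and a nonzero square modulo the odd primes dividing `b c`. A split or inert prime `p` is
*admissible* for `D` if `t⁴ + a D t² + b D²` has no root modulo `p` (all the inert primes not dividing `D` are
admissible, and there are infinitely many of them). Nothing at all is assumed on the sets of primes below
(they may be arbitrarily sparse).

Let neither `b` nor `c` be a square, `#Sel(E) · #Sel'(E) = 4` for the Selmer groups of the isogenies of degree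
two, and `w(E) = 1` (for example `X_0(14)`: `a = 13`, `b = 128`). Let `E_D(ℚ)` be finite and
`Ш(E_D/ℚ)[2^∞] = 0` (true for `D = 1`).

* INFINITE SETS. A set `S` of split or inert primes contains an infinite subset `T` such that for ALL the
  finite subsets `A` of `T` with an even number of elements `E_{D ∏ A}(ℚ)` is finite, `Ш[2^∞] = 0` and the
  parity conjecture `(-1)^{rank E_{D ∏ A}(ℚ)} = w(E_{D ∏ A})` holds, if and only if infinitely many elements of
  `S` are admissible for `D`.
* EXACT CRITERION. Two split primes not dividing `D` have the same type if both or none are admissible for `D`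
  and they have the same quadratic symbols modulo the split primes dividing `D`. If `A` is a finite set of
  split primes not dividing `D`, of the same type, with an even number of elements, then `E_{D ∏ A}` has the
  three properties if and only if the system `∑_{q ∈ A} [q / p] (x_q + x_p) = δ_p x_p` (`p ∈ A`) over the
  field with two elements has only the solution `0`; `[q / p]` is `0` if `q` is a square modulo `p` and `1`
  otherwise, and `δ_p` is `1` if `p` is admissible and `0` otherwise (the Laplacian of the graph defined by the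
  quadratic symbols). In particular for two primes `p ≠ p'` of the same type `E_{D p p'}` has the three
  properties if and only if `p` is admissible, whatever the symbol `[p / p']`.
* FINITE SETS. Among the `k`-subsets `A` of any set of at least `N = 2 ^ (2 k + ω(D) + ω(2 b c) + 1)` admissible
  primes, `k` even, at least the proportion `1 / (N choose k)` has these three properties.

For all `E` and `D` (no hypothesis on the Selmer groups and on the root number): the same two statements hold
for the property that `E_{D ∏ A}` has the same root number as `E_D` and Selmer groups of the same sizes as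
those of `E_D`.

The root number is the product of the local ones, `-1` at infinity; as in `ParityInTwistClasses` (helper845)
the theorem is proved for every system of functions `w_p` with the six well known properties
`LocalRootNumber`. The descent is that of helper115 and others (`Pool/Agent/U115/GE`), the root numbers of the
twists are from `Pool/Agent/U845/PA` (helper845), and the theorem on the Selmer groups for arbitrary sets of
primes is helper707's `MP_e23604_nt.ArbitraryPrimeSets` (with the use of Ramsey's theorem of helper693). The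
exact criterion is in `U880/SP`.
-/

set_option autoImplicit false

open scoped Classical

namespace Pool.Agent.Results.MP_577099_nt.ParityFromPrimeSets

open Pool.Agent.Results.MP_577099_nt.ParityInTwistClasses (LocalRootNumber rootNumber rank)
open Pool.Agent.Results.MP_e23604_nt.ArbitraryPrimeSets (E Sel Res Inert SplitOrInert Class Admissible
  SameSelmer TrivialTwo ForAllEven omega)

/-- the number `2 ^ (2 k + ω(D) + ω(2 b c) + 1)` -/
def bound (a b : ℤ) (D k : ℕ) : ℕ :=
  2 ^ (2 * k + omega D + omega (2 * b * (a ^ 2 - 4 * b)).natAbs + 1)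

/-- the parity conjecture for `E_D` -/
def Parity (w : ∀ (p : ℕ) [Fact p.Prime], WeierstrassCurve ℚ_[p] → ℤ) (a b : ℤ) (D : ℕ) : Prop :=
  (-1) ^ rank (E a b D) = rootNumber w (E a b D)

/-- `E_D(ℚ)` is finite, `Ш(E_D/ℚ)[2^∞] = 0`, and the parity conjecture holds for `E_D` -/
def Good (w : ∀ (p : ℕ) [Fact p.Prime], WeierstrassCurve ℚ_[p] → ℤ) (a b : ℤ) (D : ℕ) : Prop :=
  TrivialTwo a b D ∧ Parity w a b D

/-- `E_{D'}` has the root number of `E_D`, and Selmer groups of the same sizes (which bound the rank and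
`Ш[2]`) -/
def SameRootAndSelmer (w : ∀ (p : ℕ) [Fact p.Prime], WeierstrassCurve ℚ_[p] → ℤ) (a b : ℤ)
    (D D' : ℕ) : Prop :=
  SameSelmer a b D D' ∧ rootNumber w (E a b D') = rootNumber w (E a b D)

/-- `Q` holds for `D ∏ A` for at least the proportion `1 / (N choose k)` of the `k`-subsets `A` of every
finite set of at least `N` admissible primes, `k` even -/
def FiniteSets (a b : ℤ) (D : ℕ) (Q : ℕ → Prop) : Prop :=
  ∀ (k : ℕ) (S : Finset ℕ), Even k → (∀ p ∈ S, Admissible a b D p) → bound a b D k ≤ S.card →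
    S.card.choose k ≤ (bound a b D k).choose k *
      ((S.powersetCard k).filter fun A => Q (D * ∏ p ∈ A, p)).card

/-- a set `S` of split or inert primes contains an infinite `T` such that `Q` holds for `D ∏ A` for all the
finite subsets `A` of `T` with an even number of elements if and only if infinitely many elements of `S`
are admissible -/
def InfiniteSets (a b : ℤ) (D : ℕ) (Q : ℕ → Prop) : Prop :=
  ∀ S : Set ℕ, (∀ p ∈ S, SplitOrInert a b p) →
    ({p ∈ S | Admissible a b D p}.Infinite ↔ ∃ T ⊆ S, T.Infinite ∧ ForAllEven T D Q)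

/-- the symbol of `q` modulo `p` -/
noncomputable def symbol (p q : ℕ) : ZMod 2 := if IsSquare (q : ZMod p) then 0 else 1

/-- a split prime not dividing `D` -/
def NewSplit (a b : ℤ) (D p : ℕ) : Prop := p.Prime ∧ Res a b p ∧ ¬ p ∣ D

/-- both or none are admissible, and the symbols modulo the split primes dividing `D` are the same -/
def SameType (a b : ℤ) (D p p' : ℕ) : Prop := (Admissible a b D p ↔ Admissible a b D p') ∧
  ∀ i : ℕ, i.Prime → i ∣ D → Res a b i → symbol i p = symbol i p'

/-- the system of linear equations `∑_{q ∈ A} [q / p] (x_q + x_p) = δ_p x_p`, `p ∈ A`, has only the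
solution `0` -/
def Criterion (a b : ℤ) (D : ℕ) (A : Finset ℕ) : Prop := ∀ x : ℕ → ZMod 2,
  (∀ p ∈ A, ∑ q ∈ A, symbol p q * (x q + x p) = if Admissible a b D p then x p else 0) →
    ∀ p ∈ A, x p = 0

section proof

open Pool.Agent.U880.SP (New dl Ty Crit crit pair cls)

theorem E_eq (a b : ℤ) (D : ℕ) : E a b D = ParityInTwistClasses.E (a * D) (b * D ^ 2) := by
  unfold Pool.Agent.Results.MP_e23604_nt.ArbitraryPrimeSets.E
    Pool.Agent.Results.MP_e23604_nt.ArbitraryPrimeSets.curve ParityInTwistClasses.E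
  push_cast
  rfl

theorem class_iff' {a b : ℤ} {D : ℕ} : Class a b D ↔ ParityInTwistClasses.Class a b D := by
  rw [Pool.Agent.Results.MP_e23604_nt.ArbitraryPrimeSets.class_iff, ParityInTwistClasses.class_iff]

variable {w : ∀ (p : ℕ) [Fact p.Prime], WeierstrassCurve ℚ_[p] → ℤ}

theorem root_tw (hw : ∀ (p : ℕ) [Fact p.Prime], LocalRootNumber p (w p)) {a b : ℤ} (hb : b ≠ 0)
    (hc : a ^ 2 - 4 * b ≠ 0) {D : ℕ} (hD : Class a b D) :
    rootNumber w (E a b D) = rootNumber w (ParityInTwistClasses.E a b) := by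
  rw [E_eq]
  exact ((ParityInTwistClasses.result.2.1 w hw).1 a b hb hc).2 D (class_iff'.1 hD)

theorem same_root (hw : ∀ (p : ℕ) [Fact p.Prime], LocalRootNumber p (w p)) {a b : ℤ} (hb : b ≠ 0)
    (hc : a ^ 2 - 4 * b ≠ 0) {D D' : ℕ} (hD : Class a b D) (h : SameSelmer a b D D') :
    SameRootAndSelmer w a b D D' :=
  ⟨h, by rw [root_tw hw hb hc h.1, root_tw hw hb hc hD]⟩

theorem parity_of (hw : ∀ (p : ℕ) [Fact p.Prime], LocalRootNumber p (w p)) {a b : ℤ} (hb : b ≠ 0)
    (hc : a ^ 2 - 4 * b ≠ 0) (h1 : rootNumber w (E a b 1) = 1) {D : ℕ} (hD : Class a b D)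
    (hT : TrivialTwo a b D) : Good w a b D := by
  refine ⟨hT, ?_⟩
  unfold Parity
  have h2 := root_tw hw hb hc
    (Pool.Agent.Results.MP_e23604_nt.ArbitraryPrimeSets.class_one (a := a) (b := b))
  rw [ParityInTwistClasses.rank_fin _ hT.1, pow_zero, root_tw hw hb hc hD, ← h2, h1]

theorem adm_dl {a b : ℤ} {D p : ℕ} (hD : Class a b D) (hp : NewSplit a b D p) :
    Admissible a b D p ↔ dl a b D p = 1 := by
  rw [Pool.Agent.Results.MP_e23604_nt.ArbitraryPrimeSets.adm_iff]
  have h := Pool.Agent.U707.SHA.noRoot_split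
    (Pool.Agent.Results.MP_e23604_nt.ArbitraryPrimeSets.class_iff.1 hD) hp.1 hp.2.1 hp.2.2
  constructor
  · rintro ⟨-, h1⟩
    exact h.1 h1
  · intro h1
    exact ⟨⟨hp.1, Or.inl hp.2.1⟩, h.2 h1⟩

theorem ty_iff {a b : ℤ} {D p p' : ℕ} (hD : Class a b D) (hp : NewSplit a b D p)
    (hp' : NewSplit a b D p') : SameType a b D p p' ↔ Ty a b D p p' := by
  refine and_congr ?_ ⟨fun h i hi => ?_, fun h i hi hd hr => ?_⟩
  · rw [adm_dl hD hp, adm_dl hD hp']
    rcases Pool.Agent.U880.SP.zz (dl a b D p) with h | h <;>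
      rcases Pool.Agent.U880.SP.zz (dl a b D p') with h' | h' <;> rw [h, h'] <;> simp
  · obtain ⟨h1, h2⟩ := Finset.mem_filter.1 hi
    exact h i (Nat.prime_of_mem_primeFactors h1) (Nat.dvd_of_mem_primeFactors h1) h2
  · exact h i (Finset.mem_filter.2 ⟨Nat.mem_primeFactors.2 ⟨hi, hd, hD.1.ne_zero⟩, hr⟩)

theorem crit_iff {a b : ℤ} {D : ℕ} (hD : Class a b D) {A : Finset ℕ}
    (hA : ∀ p ∈ A, NewSplit a b D p) : Criterion a b D A ↔ Crit a b D A := by
  have key : ∀ p ∈ A, ∀ y : ZMod 2, (if Admissible a b D p then y else 0) = dl a b D p * y := by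
    intro p hp y
    by_cases h : Admissible a b D p
    · rw [if_pos h, (adm_dl hD (hA p hp)).1 h, one_mul]
    · rw [if_neg h]
      rcases Pool.Agent.U880.SP.zz (dl a b D p) with h' | h'
      · rw [h', zero_mul]
      · exact absurd ((adm_dl hD (hA p hp)).2 h') h
  constructor
  · intro h x hx
    refine h x fun p hp => ?_
    rw [key p hp]
    exact hx p hp
  · intro h x hx
    refine h x fun p hp => ?_
    rw [← key p hp]
    exact hx p hp

/-- finitely many points and `Ш[2^∞] = 0`, in terms of the matrix -/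
theorem tt_cork {a b : ℤ} (nb : ¬ IsSquare b) (nc : ¬ IsSquare (a ^ 2 - 4 * b))
    (h4 : (Sel a b).ncard * (Sel (-2 * a) (a ^ 2 - 4 * b)).ncard = 4) {D : ℕ} (hD : Class a b D) :
    TrivialTwo a b D ↔ Pool.Agent.U115.GE.cork a b D = 0 := by
  have hb : b ≠ 0 := by
    rintro rfl
    exact nb ⟨0, by norm_num⟩
  have hc : a ^ 2 - 4 * b ≠ 0 := by
    intro h
    exact nc ⟨0, by rw [h]; norm_num⟩
  have h1 := Pool.Agent.Results.MP_e23604_nt.ArbitraryPrimeSets.tt_part hb hc nb nc h4 hD
  have h2 : Pool.Agent.U707.SHA.kap a b D = 2 ^ Pool.Agent.U115.GE.cork a b D :=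
    Pool.Agent.U115.GE.class_kap hb hc
      (Pool.Agent.Results.MP_e23604_nt.ArbitraryPrimeSets.class_iff.1 hD)
  rw [h1, h2]
  constructor
  · intro h
    by_contra h0
    have := Nat.one_lt_two_pow h0
    omega
  · intro h
    rw [h, pow_zero]

theorem crit_part (hw : ∀ (p : ℕ) [Fact p.Prime], LocalRootNumber p (w p)) {a b : ℤ}
    (nb : ¬ IsSquare b) (nc : ¬ IsSquare (a ^ 2 - 4 * b))
    (h4 : (Sel a b).ncard * (Sel (-2 * a) (a ^ 2 - 4 * b)).ncard = 4)
    (h1 : rootNumber w (E a b 1) = 1) {D : ℕ} (hD : Class a b D) (hT : TrivialTwo a b D)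
    {A : Finset ℕ} (he : Even A.card) (hA : ∀ p ∈ A, NewSplit a b D p)
    (hS : ∀ p ∈ A, ∀ p' ∈ A, SameType a b D p p') :
    Good w a b (D * ∏ p ∈ A, p) ↔ Criterion a b D A := by
  have hb : b ≠ 0 := by
    rintro rfl
    exact nb ⟨0, by norm_num⟩
  have hc : a ^ 2 - 4 * b ≠ 0 := by
    intro h
    exact nc ⟨0, by rw [h]; norm_num⟩
  have hD' := Pool.Agent.Results.MP_e23604_nt.ArbitraryPrimeSets.class_iff.1 hD
  have hN : ∀ p ∈ A, New a b D p := hA
  have hcl : Class a b (D * ∏ p ∈ A, p) :=
    Pool.Agent.Results.MP_e23604_nt.ArbitraryPrimeSets.class_iff.2 (cls hD' hN)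
  rw [crit_iff hD hA, ← crit hD' ((tt_cork nb nc h4 hD).1 hT) hN he fun p hp p' hp' =>
    (ty_iff hD (hA p hp) (hA p' hp')).1 (hS p hp p' hp'), ← tt_cork nb nc h4 hcl]
  exact ⟨fun h => h.1, fun h => parity_of hw hb hc h1 hcl h⟩

theorem pair_part (hw : ∀ (p : ℕ) [Fact p.Prime], LocalRootNumber p (w p)) {a b : ℤ}
    (nb : ¬ IsSquare b) (nc : ¬ IsSquare (a ^ 2 - 4 * b))
    (h4 : (Sel a b).ncard * (Sel (-2 * a) (a ^ 2 - 4 * b)).ncard = 4)
    (h1 : rootNumber w (E a b 1) = 1) {D : ℕ} (hD : Class a b D) (hT : TrivialTwo a b D)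
    {p p' : ℕ} (hp : NewSplit a b D p) (hp' : NewSplit a b D p') (hne : p ≠ p')
    (hS : SameType a b D p p') : Good w a b (D * (p * p')) ↔ Admissible a b D p := by
  have hb : b ≠ 0 := by
    rintro rfl
    exact nb ⟨0, by norm_num⟩
  have hc : a ^ 2 - 4 * b ≠ 0 := by
    intro h
    exact nc ⟨0, by rw [h]; norm_num⟩
  have hD' := Pool.Agent.Results.MP_e23604_nt.ArbitraryPrimeSets.class_iff.1 hD
  have hN : ∀ r ∈ ({p, p'} : Finset ℕ), New a b D r := by
    intro r hr
    rw [Finset.mem_insert, Finset.mem_singleton] at hr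
    rcases hr with rfl | rfl
    · exact hp
    · exact hp'
  have hcl : Class a b (D * (p * p')) := by
    have h := cls hD' hN
    rw [Finset.prod_pair hne] at h
    exact Pool.Agent.Results.MP_e23604_nt.ArbitraryPrimeSets.class_iff.2 h
  rw [adm_dl hD hp, ← pair hD' ((tt_cork nb nc h4 hD).1 hT) hp hp' hne
    ((ty_iff hD hp hp').1 hS), ← tt_cork nb nc h4 hcl]
  exact ⟨fun h => h.1, fun h => parity_of hw hb hc h1 hcl h⟩

end proof

/-- **The parity conjecture for quadratic twists with prime factors in an arbitrary set of primes.** -/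
theorem result :
    (∀ (p : ℕ) [Fact p.Prime], ∃ w : WeierstrassCurve ℚ_[p] → ℤ, LocalRootNumber p w) ∧
    (∀ w : ∀ (p : ℕ) [Fact p.Prime], WeierstrassCurve ℚ_[p] → ℤ,
      (∀ (p : ℕ) [Fact p.Prime], LocalRootNumber p (w p)) →
      (∀ a b : ℤ, b ≠ 0 → a ^ 2 - 4 * b ≠ 0 → ∀ D : ℕ, Class a b D →
        FiniteSets a b D (SameRootAndSelmer w a b D) ∧
        InfiniteSets a b D (SameRootAndSelmer w a b D) ∧
        ∀ q : ℕ, q.Prime → Inert a b q → ¬ q ∣ D → Admissible a b D q) ∧
      (∀ a b : ℤ, ¬ IsSquare b → ¬ IsSquare (a ^ 2 - 4 * b) →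
        (Sel a b).ncard * (Sel (-2 * a) (a ^ 2 - 4 * b)).ncard = 4 →
        rootNumber w (E a b 1) = 1 →
        {q : ℕ | q.Prime ∧ Inert a b q}.Infinite ∧ Class a b 1 ∧ TrivialTwo a b 1 ∧
        ∀ D : ℕ, Class a b D → TrivialTwo a b D →
          InfiniteSets a b D (Good w a b) ∧ FiniteSets a b D (Good w a b) ∧
          (∀ A : Finset ℕ, Even A.card → (∀ p ∈ A, NewSplit a b D p) →
            (∀ p ∈ A, ∀ p' ∈ A, SameType a b D p p') →
              (Good w a b (D * ∏ p ∈ A, p) ↔ Criterion a b D A)) ∧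
          ∀ p p' : ℕ, NewSplit a b D p → NewSplit a b D p' → p ≠ p' → SameType a b D p p' →
            (Good w a b (D * (p * p')) ↔ Admissible a b D p)) ∧
      rootNumber w (E 13 128 1) = 1) ∧
    ¬ IsSquare (128 : ℤ) ∧ ¬ IsSquare (13 ^ 2 - 4 * 128 : ℤ) ∧
    (Sel 13 128).ncard * (Sel (-2 * 13) (13 ^ 2 - 4 * 128)).ncard = 4 := by
  obtain ⟨r1, r2, r3, r4, r5, -⟩ := ParityInTwistClasses.result
  have hr := Pool.Agent.Results.MP_e23604_nt.ArbitraryPrimeSets.result
  refine ⟨r1, fun w hw => ⟨fun a b hb hc D hD => ?_, fun a b nb nc h4 h1 => ?_, ?_⟩, r3, r4,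
    (hr 1 1 (by norm_num) (by norm_num)).2.2⟩
  · obtain ⟨g1, g2, -, g4⟩ := (hr a b hb hc).1 D hD
    refine ⟨fun k S hk hS hN => ?_, fun S hS => ?_, g4⟩
    · refine (g1 k S hk hS hN).trans (Nat.mul_le_mul_left _ (Finset.card_le_card ?_))
      intro A hA
      rw [Finset.mem_filter] at hA ⊢
      exact ⟨hA.1, same_root hw hb hc hD hA.2⟩
    · refine ((g2 S hS).out 0 1).trans ⟨?_, ?_⟩
      · rintro ⟨T, hT, h2, h3⟩
        exact ⟨T, hT, h2, fun A hA he => same_root hw hb hc hD (h3 A hA he)⟩
      · rintro ⟨T, hT, h2, h3⟩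
        exact ⟨T, hT, h2, fun A hA he => (h3 A hA he).1⟩
  · have hb : b ≠ 0 := by
      rintro rfl
      exact nb ⟨0, by norm_num⟩
    have hc : a ^ 2 - 4 * b ≠ 0 := by
      intro h
      exact nc ⟨0, by rw [h]; norm_num⟩
    obtain ⟨g0, -, -⟩ := hr a b hb hc
    obtain ⟨i1, i2⟩ := (hr a b hb hc).2.1 nb nc
    obtain ⟨j1, j2, j3⟩ := i2 h4
    refine ⟨i1, j1, j2, fun D hD hT => ?_⟩
    obtain ⟨k1, k2, -⟩ := j3 D hD hT
    obtain ⟨g1, g2, -, -⟩ := g0 D hD
    refine ⟨fun S hS => ?_, fun k S hk hS hN => ?_, fun A he hA hS =>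
      crit_part hw nb nc h4 h1 hD hT he hA hS, fun p p' hp hp' hne hS =>
      pair_part hw nb nc h4 h1 hD hT hp hp' hne hS⟩
    rotate_left
    · refine (g1 k S hk hS hN).trans (Nat.mul_le_mul_left _ (Finset.card_le_card ?_))
      intro A hA
      rw [Finset.mem_filter] at hA ⊢
      exact ⟨hA.1, parity_of hw hb hc h1 hA.2.1 (k1 _ hA.2)⟩
    · constructor
      · intro h
        obtain ⟨T, hTS, h2, h3⟩ := ((g2 S hS).out 0 1).1 h
        exact ⟨T, hTS, h2, fun A hA he =>
          parity_of hw hb hc h1 (h3 A hA he).1 (k1 _ (h3 A hA he))⟩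
      · rintro ⟨T, hTS, h2, h3⟩
        exact (k2 S hS).2 ⟨T, hTS, h2, fun A hA he => (h3 A hA he).1⟩
  · have h2 := root_tw hw (a := 13) (b := 128) (by norm_num) (by norm_num)
      (Pool.Agent.Results.MP_e23604_nt.ArbitraryPrimeSets.class_one (a := 13) (b := 128))
    rw [h2]
    exact (ParityInTwistClasses.result.2.1 w hw).2.2

end Pool.Agent.Results.MP_577099_nt.ParityFromPrimeSets
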