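import Mathlib
import Pool.Agent.U974.GC.Cfg
import Pool.Agent.U845.PA.Glob
import Pool.Agent.U115.GE.Dens
import Pool.Agent.U115.GE.Ex
import Pool.Agent.U80.NP.Grp

/-!
# The parity conjecture for whole finite families of elliptic curves in prime tuples, for a positive proportion of all
# tuples of shifts

`E = E_{a,b} : y² = x³ + a x² + b x`, neither `b` nor `a² - 4 b` a square; `E_D = E_{aD, bD²}` is the quadratic twist;
`s(E)` is the Selmer rank of the descent by the isogeny of degree two; `w(E)` is the root number, the product of the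
local ones (of ANY system of functions with the known properties `LocalRootNumber` of the local root numbers; there
are such systems, in particular the local root numbers).

Let `F` be ANY finite set of such pairs `(a, b)`, `m ≥ 0` and `N ≥ 1`. There are numbers `R_e`, `e ∈ F` (products of
primes modulo which `b` and `a² - 4 b` are nonsquares), and a bound `B` such that in EVERY set `W` of at least `δ x`
integers of `[0, x]` at least the proportion `c(δ) > 0` of all the `x ^ m` vectors `h_1 < ... < h_m` have their entries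
in `W` and satisfy: for EVERY graph `G` with the vertices `1, ..., m` there are `{d_e, d'_e} = {1, R_e}`, `e ∈ F`, such
that for infinitely many `n` the numbers `p_i = n + h_i` are primes, `1` modulo `N`, at most `B` primes lie at distance
at most `Y` from `n` (for every `Y`), and for ALL the curves `e = (a, b) ∈ F` and ALL `S ⊆ {1, ..., m}`:

* `w(E_D) = w(E)` and `s(E_D) = s(E) + 2 k`, `rank E_D ≤ s(E) + 2 k` for `D = d_e ∏_{i ∈ S} p_i` with
  `k = k_1(S)`, the corank of the matrix `1 + Laplacian` of the subgraph `G[S]` over the field with two elements, and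
  for `D = d'_e ∏_{i ∈ S} p_i` with `k = k_0(S)`, the corank of the Laplacian; so `(-1)^{s(E_D)} = w(E_D)` for all
  these `D` if and only if this is so for `E`;
* if `s(E) = 0`: `E_D(ℚ)` is finite and `Ш(E_D)[2^∞] = 0` if and only if `k = 0`, and then, if `w(E) = 1`, the parity
  conjecture `(-1)^{rank E_D} = w(E_D)` holds.

For the graph without edges `k_1(S) = 0` for all `S`: for a positive proportion of all the `m`-tuples `h` there are
infinitely many prime tuples `(n + h_1, ..., n + h_m)` such that the parity conjecture holds, with rank `0`, for the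
twists of all the members of the family with `s = 0`, `w = 1` by all the `2 ^ m` partial products (times `1` or times
`R_e`) at once. The curve `y² = x³ + 13 x² + 128 x` has `s = 0`, `w = 1` (this is proved).

Proof. The descent is that of project GE (helper115 and others, `U115/GE`); the root numbers are from `U845/PA`
(helper845). The prime tuples are those of `U974/PP` (Maynard–Tao, Ramsey, Paley graphs), with one value of the vector
of the descent invariants `θ_e(p)` of all the curves for all the primes of the tuple, and the numbers `R_e` (products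
of two inert primes) are nonresidues modulo the new primes and change them (`U974/GC`).
-/

set_option autoImplicit false

open scoped Classical

namespace Pool.Agent.Results.MP_577099_nt.ParityInPrimeTuples

open WeierstrassCurve
open Pool.Agent.TH841.NF.D (Sha)

section local_root_numbers

/-- the coefficients of the equation are `p`-adic integers -/
structure Integral {p : ℕ} [Fact p.Prime] (W : WeierstrassCurve ℚ_[p]) : Prop where
  a₁ : ‖W.a₁‖ ≤ 1
  a₂ : ‖W.a₂‖ ≤ 1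
  a₃ : ‖W.a₃‖ ≤ 1
  a₄ : ‖W.a₄‖ ≤ 1
  a₆ : ‖W.a₆‖ ≤ 1

/-- an equation with good reduction -/
def Good {p : ℕ} [Fact p.Prime] (W : WeierstrassCurve ℚ_[p]) : Prop := Integral W ∧ ‖W.Δ‖ = 1

/-- an equation whose reduction has a node at the origin -/
structure Node {p : ℕ} [Fact p.Prime] (W : WeierstrassCurve ℚ_[p]) : Prop where
  int : Integral W
  a₃ : ‖W.a₃‖ < 1
  a₄ : ‖W.a₄‖ < 1
  a₆ : ‖W.a₆‖ < 1
  b₂ : ‖W.b₂‖ = 1

/-- the tangents at the node, the zeros of `α² + a₁ α - a₂`, are defined over the residue field -/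
def Tangents {p : ℕ} [Fact p.Prime] (W : WeierstrassCurve ℚ_[p]) : Prop :=
  ∃ α : ℚ_[p], ‖α‖ ≤ 1 ∧ ‖α ^ 2 + W.a₁ * α - W.a₂‖ < 1

/-- the quadratic twist by `d` -/
def tw {K : Type} [Field K] (W : WeierstrassCurve K) (d : K) : WeierstrassCurve K :=
  ⟨0, d * W.b₂ / 4, 0, d ^ 2 * W.b₄ / 2, d ^ 3 * W.b₆ / 4⟩

/-- `w` has the following properties of the local root number `w(E/ℚ_p)`: it is `1` or `-1`, it is the
same for isomorphic curves, it is `1` for good reduction, `-1` for split multiplicative reduction, `1` for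
nonsplit multiplicative reduction, and `(-1 / p)` for the ramified quadratic twists of the curves with
good reduction if `p` is odd -/
structure LocalRootNumber (p : ℕ) [Fact p.Prime] (w : WeierstrassCurve ℚ_[p] → ℤ) : Prop where
  sign : ∀ W, w W = 1 ∨ w W = -1
  iso : ∀ (C : VariableChange ℚ_[p]) (W : WeierstrassCurve ℚ_[p]), w (C • W) = w W
  good : ∀ W, Good W → w W = 1
  split : ∀ W, W.Δ ≠ 0 → Node W → Tangents W → w W = -1
  nonsplit : ∀ W, W.Δ ≠ 0 → Node W → ¬ Tangents W → w W = 1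
  twist : p ≠ 2 → ∀ W, Good W → ∀ d : ℚ_[p], ‖d‖ = (p : ℝ)⁻¹ →
    w (tw W d) = if p % 4 = 1 then 1 else -1

/-- the root number of `E`: the product of the local root numbers and of `w(E/ℝ) = -1` -/
noncomputable def rootNumber (w : ∀ (p : ℕ) [Fact p.Prime], WeierstrassCurve ℚ_[p] → ℤ)
    (E : WeierstrassCurve ℚ) : ℤ :=
  - ∏ᶠ p : Nat.Primes, haveI : Fact (p : ℕ).Prime := ⟨p.2⟩; w p (E.map (algebraMap ℚ ℚ_[p]))

theorem integral_iff {p : ℕ} [Fact p.Prime] (W : WeierstrassCurve ℚ_[p]) :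
    Integral W ↔ Pool.Agent.U845.PA.Integral W :=
  ⟨fun h => ⟨h.1, h.2, h.3, h.4, h.5⟩, fun h => ⟨h.1, h.2, h.3, h.4, h.5⟩⟩

theorem good_iff {p : ℕ} [Fact p.Prime] (W : WeierstrassCurve ℚ_[p]) :
    Good W ↔ Pool.Agent.U845.PA.Good W := and_congr_left fun _ => integral_iff W

theorem node_iff {p : ℕ} [Fact p.Prime] (W : WeierstrassCurve ℚ_[p]) :
    Node W ↔ Pool.Agent.U845.PA.Node W :=
  ⟨fun h => ⟨(integral_iff W).1 h.1, h.2, h.3, h.4, h.5⟩,
    fun h => ⟨(integral_iff W).2 h.1, h.2, h.3, h.4, h.5⟩⟩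

theorem local_iff {p : ℕ} [Fact p.Prime] (w : WeierstrassCurve ℚ_[p] → ℤ) :
    LocalRootNumber p w ↔ Pool.Agent.U845.PA.LocalRootNumber p w :=
  ⟨fun h => ⟨h.1, h.2, fun W hW => h.3 W ((good_iff W).2 hW),
    fun W h1 h2 h3 => h.4 W h1 ((node_iff W).2 h2) h3,
    fun W h1 h2 h3 => h.5 W h1 ((node_iff W).2 h2) h3,
    fun h1 W hW d hd => h.6 h1 W ((good_iff W).2 hW) d hd⟩,
  fun h => ⟨h.1, h.2, fun W hW => h.3 W ((good_iff W).1 hW),
    fun W h1 h2 h3 => h.4 W h1 ((node_iff W).1 h2) h3,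
    fun W h1 h2 h3 => h.5 W h1 ((node_iff W).1 h2) h3,
    fun h1 W hW d hd => h.6 h1 W ((good_iff W).1 hW) d hd⟩⟩

end local_root_numbers

/-- the curve `y² = x³ + A x² + B x` over `ℚ` -/
def E (A B : ℤ) : WeierstrassCurve ℚ := ⟨0, (A : ℚ), 0, (B : ℚ), 0⟩

/-- the rank of the group of the rational points -/
noncomputable def rank (W : WeierstrassCurve ℚ) : ℕ := Module.finrank ℤ W.toAffine.Point

/-- the group of the rational points is finite and `Ш[2^∞] = 0` -/
def TrivialTwo (W : WeierstrassCurve ℚ) : Prop :=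
  Finite W.toAffine.Point ∧ ∀ (n : ℕ) (x : Sha W), 2 ^ n • x = 0 → x = 0

/-- the quartic of `d` has a nontrivial point over `K` -/
def Quartic (K : Type) [Field K] (a b d : ℤ) : Prop :=
  ∃ N M e : K, (M ≠ 0 ∨ e ≠ 0) ∧
    N ^ 2 = (d : K) * M ^ 4 + (a : K) * M ^ 2 * e ^ 2 + (b : K) / (d : K) * e ^ 4

/-- the Selmer group of the isogeny of degree two of `y² = x³ + a x² + b x` -/
def Sel (a b : ℤ) : Set ℤ :=
  {d | Squarefree d ∧ Quartic ℝ a b d ∧ ∀ (p : ℕ) [Fact p.Prime], Quartic ℚ_[p] a b d}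

/-- `n` is `1` modulo `8` and a nonzero square modulo the odd primes dividing `b (a² - 4 b)` -/
def Res (a b : ℤ) (n : ℕ) : Prop := n % 8 = 1 ∧ ∀ l : ℕ, l.Prime → l ≠ 2 →
  (l : ℤ) ∣ b * (a ^ 2 - 4 * b) → ¬ l ∣ n ∧ IsSquare (n : ZMod l)

/-- the inert primes -/
def Inert (a b : ℤ) (q : ℕ) : Prop := q ≠ 2 ∧ ¬ IsSquare (b : ZMod q) ∧
  ¬ IsSquare ((a ^ 2 - 4 * b : ℤ) : ZMod q)

/-- the Selmer rank of the descent by the isogeny of degree two: the logarithm to the base two of the number of the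
elements of the two Selmer groups, minus two -/
noncomputable def s (a b : ℤ) : ℤ :=
  (Nat.log 2 (Sel a b).ncard : ℤ) + (Nat.log 2 (Sel (-2 * a) (a ^ 2 - 4 * b)).ncard : ℤ) - 2

/-- the corank of the matrix `g + Laplacian` of the subgraph of `G` induced on `S`, over the field with two
elements -/
noncomputable def corank {m : ℕ} (G : SimpleGraph (Fin m)) (g : ZMod 2) (S : Finset (Fin m)) : ℕ :=
  S.card - (g • (1 : Matrix (S : Set (Fin m)) (S : Set (Fin m)) (ZMod 2)) +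
    (G.induce (S : Set (Fin m))).lapMatrix (ZMod 2)).rank

/-- the law of the twists of `E_{a,b}` by `D = d ∏_{i ∈ S} p_i` with the matrices `g + Laplacian` -/
def Law (a b : ℤ) {m : ℕ} (G : SimpleGraph (Fin m)) (p : Fin m → ℕ) (g : ZMod 2) (d : ℕ) : Prop :=
  ∀ (S : Finset (Fin m)) (D : ℕ), D = d * ∏ i ∈ S, p i →
    s (a * D) (b * D ^ 2) = s a b + 2 * corank G g S ∧
    (rank (E (a * D) (b * D ^ 2)) : ℤ) ≤ s a b + 2 * corank G g S ∧
    (s a b = 0 → (TrivialTwo (E (a * D) (b * D ^ 2)) ↔ corank G g S = 0)) ∧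
    ∀ w : ∀ (p : ℕ) [Fact p.Prime], WeierstrassCurve ℚ_[p] → ℤ,
      (∀ (p : ℕ) [Fact p.Prime], LocalRootNumber p (w p)) →
      rootNumber w (E (a * D) (b * D ^ 2)) = rootNumber w (E a b) ∧
      (s a b = 0 → rootNumber w (E a b) = 1 → corank G g S = 0 →
        (-1) ^ rank (E (a * D) (b * D ^ 2)) = rootNumber w (E (a * D) (b * D ^ 2)))

/-- the property of the tuple `h`: for every graph `G` there are `{d_e, d'_e} = {1, R_e}`, `e ∈ F`, such that for
infinitely many `n` the numbers `n + h i` are primes, `1` modulo `N`, with at most `B` primes at distance at most `Y`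
from `n` (for every `Y`), and the laws hold for all `e ∈ F` -/
def AllGraphs (F : Finset (ℤ × ℤ)) (N B : ℕ) (R : ℤ × ℤ → ℕ) {m : ℕ} (h : Fin m → ℕ) : Prop :=
  ∀ G : SimpleGraph (Fin m), ∃ d d' : ℤ × ℤ → ℕ,
    (∀ e, d e = 1 ∧ d' e = R e ∨ d e = R e ∧ d' e = 1) ∧ ∀ Y : ℕ,
    {n : ℕ | (∀ i, (n + h i).Prime ∧ n + h i ≡ 1 [MOD N]) ∧
      {p : ℕ | p.Prime ∧ |(p : ℤ) - n| ≤ Y}.ncard ≤ B ∧
      ∀ e ∈ F, Law e.1 e.2 G (fun i => n + h i) 1 (d e) ∧
        Law e.1 e.2 G (fun i => n + h i) 0 (d' e)}.Infinite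

section proof

open Pool.Agent.U115.GE (SelSet sel sel_dvd HG kapG)

theorem sel_eq (a b : ℤ) : Sel a b = SelSet a b := rfl

theorem card_pow {a b : ℤ} (hb : b ≠ 0) : (Sel a b).ncard = 2 ^ Nat.log 2 (Sel a b).ncard := by
  have key : ∀ (d : ℤ), Squarefree d → d ∣ b → ∀ (K : Type) [Field K] [CharZero K],
      ((b / d : ℤ) : K) = (b : K) / (d : K) := by
    intro d hd hdb K _ _
    exact Int.cast_div hdb (by exact_mod_cast hd.ne_zero)
  have h2 : ∀ d : ℤ, d ∈ SelSet a b → d ∣ b := by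
    intro d h
    have h1 : d.natAbs ∣ b.natAbs := by
      rw [← Nat.prod_primeFactors_of_squarefree (Int.squarefree_natAbs.2 h.1)]
      refine Finset.prod_primes_dvd _ (fun p hp => (Nat.prime_of_mem_primeFactors hp).prime)
        fun p hp => ?_
      have h2 := sel_dvd h (Nat.prime_of_mem_primeFactors hp)
        (Int.natCast_dvd.2 (Nat.dvd_of_mem_primeFactors hp))
      exact Int.natCast_dvd.1 h2
    exact Int.natAbs_dvd_natAbs.1 h1
  have h3 : Sel a b = Pool.Agent.U80.NP.Sel a b := by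
    rw [← Pool.Agent.U80.NP.qs_eq a b]
    ext d
    constructor
    · intro h
      have hd := h2 d h
      obtain ⟨h1, h3, h4⟩ := h
      refine ⟨h1, hd, ?_, fun p hp => ?_⟩
      · rw [key d h1 hd ℝ]
        exact h3
      · have h5 := h4 p
        rw [key d h1 hd ℚ_[p]]
        exact h5
    · rintro ⟨h1, hd, h3, h4⟩
      rw [key d h1 hd ℝ] at h3
      refine ⟨h1, h3, fun p hp => ?_⟩
      have h5 := h4 p
      rw [key d h1 hd ℚ_[p]] at h5
      exact h5
  rw [h3]
  exact Pool.Agent.U80.NP.ncard_pow (a := a) hb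

theorem root_eq (w : ∀ (p : ℕ) [Fact p.Prime], WeierstrassCurve ℚ_[p] → ℤ) (A B : ℤ) :
    rootNumber w (E A B) = Pool.Agent.U845.PA.rootNumber w (Pool.Agent.U845.PA.EC ℚ A B) := rfl

theorem twE_eq (a b : ℤ) (D : ℕ) : Pool.Agent.U115.GE.twE a b D = E (a * D) (b * D ^ 2) := by
  rw [Pool.Agent.U115.GE.twE_eq]
  rfl

theorem two {m n : ℕ} (h : 2 ^ m = 2 ^ n) : m = n := Nat.pow_right_injective le_rfl h

theorem rk_eq (W : WeierstrassCurve ℚ) : Pool.Agent.TH841.NF.D.rk W = rank W := by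
  have h : Classical.decEq ℚ = (inferInstance : DecidableEq ℚ) := Subsingleton.elim _ _
  unfold Pool.Agent.TH841.NF.D.rk rank
  rw [h]

/-- products of split primes and of inert primes are in the class -/
theorem cls {a b : ℤ} {m : ℕ} {P : Finset ℕ} (H : HG a b m P) {D : ℕ} (hD : D = (∏ p ∈ P, p) * m) :
    Pool.Agent.U115.GE.Class a b D := by
  subst hD
  refine ⟨Int.squarefree_natCast.1 H.sqf, H.res, fun p hp => ?_⟩
  have hpp := Nat.prime_of_mem_primeFactors hp
  rcases hpp.dvd_mul.1 (Nat.dvd_of_mem_primeFactors hp) with h | h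
  · left
    obtain ⟨q, hq, hpq⟩ := (hpp.prime.dvd_finsetProd_iff _).1 h
    rw [(Nat.prime_dvd_prime_iff_eq hpp (H.pr q hq).1).1 hpq]
    exact H.pr q hq
  · right
    exact ⟨hpp, H.two p hpp h⟩

/-- the law of one twist -/
theorem law_of {a b : ℤ} (nb : ¬ IsSquare b) (nc : ¬ IsSquare (a ^ 2 - 4 * b)) {m : ℕ} {P : Finset ℕ}
    (H : HG a b m P) {k D : ℕ} (hk : kapG a b m P = 2 ^ k) (hD : D = (∏ p ∈ P, p) * m) :
    s (a * D) (b * D ^ 2) = s a b + 2 * k ∧
    (rank (E (a * D) (b * D ^ 2)) : ℤ) ≤ s a b + 2 * k ∧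
    (s a b = 0 → (TrivialTwo (E (a * D) (b * D ^ 2)) ↔ k = 0)) ∧
    ∀ w : ∀ (p : ℕ) [Fact p.Prime], WeierstrassCurve ℚ_[p] → ℤ,
      (∀ (p : ℕ) [Fact p.Prime], LocalRootNumber p (w p)) →
      rootNumber w (E (a * D) (b * D ^ 2)) = rootNumber w (E a b) ∧
      (s a b = 0 → rootNumber w (E a b) = 1 → k = 0 →
        (-1) ^ rank (E (a * D) (b * D ^ 2)) = rootNumber w (E (a * D) (b * D ^ 2))) := by
  have hb0 : b ≠ 0 := H.hb
  have hc0 : a ^ 2 - 4 * b ≠ 0 := H.hc
  have hG := Pool.Agent.U739.GE.t_GOOD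
  have hB := Pool.Agent.U796.GE.t_BND
  obtain ⟨h1, h2⟩ := H.bound hG hB hD
  have e1 := H.sel_eq hG
  have e2 := H.sel_eq' hG
  rw [← hD, hk] at e1 e2
  rw [hk] at h2
  have g1 : (Sel a b).ncard = 2 ^ Nat.log 2 (Sel a b).ncard := card_pow hb0
  have g2 : (Sel (-2 * a) (a ^ 2 - 4 * b)).ncard = 2 ^ Nat.log 2 (Sel (-2 * a) (a ^ 2 - 4 * b)).ncard :=
    card_pow hc0
  have g3 : (Sel (a * D) (b * D ^ 2)).ncard = 2 ^ Nat.log 2 (Sel (a * D) (b * D ^ 2)).ncard :=
    card_pow (H.b0 hD)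
  have g4 : (Sel (-2 * (a * D)) ((a * D) ^ 2 - 4 * (b * D ^ 2))).ncard =
      2 ^ Nat.log 2 (Sel (-2 * (a * D)) ((a * D) ^ 2 - 4 * (b * D ^ 2))).ncard := card_pow (H.c0 hD)
  change (Sel (a * D) (b * D ^ 2)).ncard = 2 ^ k * (Sel a b).ncard at e1
  change (Sel (-2 * (a * D)) ((a * D) ^ 2 - 4 * (b * D ^ 2))).ncard =
    2 ^ k * (Sel (-2 * a) (a ^ 2 - 4 * b)).ncard at e2
  rw [g1, g3, ← pow_add] at e1
  rw [g2, g4, ← pow_add] at e2
  have f1 := two e1
  have f2 := two e2
  have hs : s (a * D) (b * D ^ 2) = s a b + 2 * k := by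
    unfold s
    rw [f1, f2]
    push_cast
    ring
  have hrk : (rank (E (a * D) (b * D ^ 2)) : ℤ) ≤ s a b + 2 * k := by
    rw [rk_eq, twE_eq] at h2
    have hX0 : 0 < Nat.card {x : Sha (Pool.Agent.U115.GE.twE a b D) // 2 • x = 0} :=
      Nat.card_pos_iff.2 ⟨⟨⟨0, smul_zero 2⟩⟩, h1⟩
    rw [twE_eq] at hX0
    change _ ≤ (2 ^ k) ^ 2 * ((Sel a b).ncard * (Sel (-2 * a) (a ^ 2 - 4 * b)).ncard) at h2
    rw [g1, g2, ← pow_mul, ← pow_add, ← pow_add] at h2
    have h3 : 2 ^ (rank (E (a * D) (b * D ^ 2)) + 2) ≤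
        2 ^ (k * 2 + (Nat.log 2 (Sel a b).ncard + Nat.log 2 (Sel (-2 * a) (a ^ 2 - 4 * b)).ncard)) := by
      refine le_trans ?_ h2
      have h4 : 2 ^ (rank (E (a * D) (b * D ^ 2)) + 2) = 4 * 2 ^ rank (E (a * D) (b * D ^ 2)) := by
        rw [pow_add]; ring
      rw [h4]
      exact Nat.le_mul_of_pos_right (4 * 2 ^ rank (E (a * D) (b * D ^ 2))) hX0
    have h5 := (Nat.pow_le_pow_iff_right (by norm_num : 1 < 2)).1 h3
    unfold s
    omega
  have hroot : ∀ w : ∀ (p : ℕ) [Fact p.Prime], WeierstrassCurve ℚ_[p] → ℤ,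
      (∀ (p : ℕ) [Fact p.Prime], LocalRootNumber p (w p)) →
      rootNumber w (E (a * D) (b * D ^ 2)) = rootNumber w (E a b) := by
    intro w hw
    have hw' : ∀ (p : ℕ) [Fact p.Prime], Pool.Agent.U845.PA.LocalRootNumber p (w p) :=
      fun p _ => (local_iff _).1 (hw p)
    rw [root_eq, root_eq]
    exact Pool.Agent.U845.PA.root_twist hw' hb0 hc0 (cls H hD)
  refine ⟨hs, hrk, fun h0 => ?_, fun w hw => ⟨hroot w hw, fun h0 hw1 hk0 => ?_⟩⟩
  · have h4 : sel a b * sel (-2 * a) (a ^ 2 - 4 * b) = 4 := by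
      show (Sel a b).ncard * (Sel (-2 * a) (a ^ 2 - 4 * b)).ncard = 4
      rw [g1, g2, ← pow_add]
      unfold s at h0
      have : Nat.log 2 (Sel a b).ncard + Nat.log 2 (Sel (-2 * a) (a ^ 2 - 4 * b)).ncard = 2 := by omega
      rw [this]
      norm_num
    have h5 := H.iff hG hB nb nc h4 hD
    rw [hk, twE_eq] at h5
    unfold TrivialTwo
    rw [h5]
    constructor
    · intro h6
      exact two (h6.trans (pow_zero 2).symm)
    · rintro rfl
      rfl
  · have h6 : rank (E (a * D) (b * D ^ 2)) = 0 := by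
      rw [h0, hk0] at hrk
      omega
    rw [h6, pow_zero, hroot w hw, hw1]

theorem law_cfg {a b : ℤ} (nb : ¬ IsSquare b) (nc : ¬ IsSquare (a ^ 2 - 4 * b)) {m : ℕ}
    {G : SimpleGraph (Fin m)} {p : Fin m → ℕ} {θ : ZMod 2} {R : ℕ}
    (h : Pool.Agent.U974.GC.Cfg a b G p θ R) (β : Bool) {g : ZMod 2} (hg : θ + (if β then 1 else 0) = g) :
    Law a b G p g (if β then R else 1) := by
  have hb0 : b ≠ 0 := by
    rintro rfl
    exact nb ⟨0, by norm_num⟩
  have hc0 : a ^ 2 - 4 * b ≠ 0 := by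
    intro h
    exact nc (by rw [h]; exact ⟨0, by norm_num⟩)
  intro S D hD
  have h1 := h.kap hb0 hc0 β S
  rw [hg] at h1
  have h2 := h.prod β S
  have h3 : D = (∏ q ∈ S.image p, q) * Pool.Agent.U974.GC.aux R β := by
    rw [hD, ← h2]
    rfl
  exact law_of nb nc (h.hg hb0 hc0 β S) h1 h3

theorem corank_of {m : ℕ} (G : SimpleGraph (Fin m)) (hG : ∀ i j, ¬ G.Adj i j) (S : Finset (Fin m)) :
    corank G 1 S = 0 := by
  unfold corank
  have h1 : (1 : ZMod 2) • (1 : Matrix (S : Set (Fin m)) (S : Set (Fin m)) (ZMod 2)) +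
      (G.induce (S : Set (Fin m))).lapMatrix (ZMod 2) = 1 := by
    refine Matrix.ext_of_mulVec_single fun k => ?_
    generalize (Pi.single k 1 : ↥(S : Set (Fin m)) → ZMod 2) = v
    funext i
    have h2 := Pool.Agent.U974.GC.lapG_apply G 1 S v i
    unfold Pool.Agent.U974.GC.lapG at h2
    rw [h2, Matrix.one_mulVec, one_mul]
    simp [hG]
  rw [h1, Matrix.rank_one]
  simp

theorem s_X14 : s 13 128 = 0 := by
  obtain ⟨e1, e2⟩ := Pool.Agent.U115.GE.sel_X14
  have e1' : (Sel 13 128).ncard = 2 := e1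
  have e2' : (Sel (-2 * 13) (13 ^ 2 - 4 * 128)).ncard = 2 := e2
  have h : Nat.log 2 (2 ^ 1) = 1 := Nat.log_pow one_lt_two 1
  rw [pow_one] at h
  unfold s
  rw [e1', e2', h]
  norm_num

end proof

/-- **Theorem.** There are systems of functions with the properties `LocalRootNumber`; for all of them `w = 1` for
`y² = x³ + 13 x² + 128 x`, and `s = 0` for this curve. For every finite family of curves `E_{a,b}`, neither `b` nor
`a² - 4 b` a square, the laws for the Selmer ranks, the ranks, the root numbers and the parity conjecture hold in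
infinitely many prime tuples, for a positive proportion of all tuples of shifts. -/
theorem result (F : Finset (ℤ × ℤ)) (hF : ∀ e ∈ F, ¬ IsSquare e.2 ∧ ¬ IsSquare (e.1 ^ 2 - 4 * e.2)) (m N : ℕ)
    (hN : 0 < N) :
    (∃ R : ℤ × ℤ → ℕ, (∀ e ∈ F, Squarefree (R e) ∧ Res e.1 e.2 (R e) ∧
      ∀ q : ℕ, q.Prime → q ∣ R e → Inert e.1 e.2 q) ∧ ∃ B : ℕ, ∀ δ : ℝ, 0 < δ → ∃ c : ℝ, 0 < c ∧
      ∃ x₀ : ℕ, ∀ x : ℕ, x₀ ≤ x → ∀ W : Finset ℕ, (∀ w ∈ W, w ≤ x) → δ * x ≤ W.card →
        c * (x : ℝ) ^ m ≤ ({h : Fin m → ℕ | StrictMono h ∧ (∀ i, h i ∈ W) ∧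
          AllGraphs F N B R h}.ncard : ℝ)) ∧
    (∀ S : Finset (Fin m), corank (⊥ : SimpleGraph (Fin m)) 1 S = 0) ∧
    (∀ (p : ℕ) [Fact p.Prime], ∃ w : WeierstrassCurve ℚ_[p] → ℤ, LocalRootNumber p w) ∧
    s 13 128 = 0 ∧ ∀ w : ∀ (p : ℕ) [Fact p.Prime], WeierstrassCurve ℚ_[p] → ℤ,
      (∀ (p : ℕ) [Fact p.Prime], LocalRootNumber p (w p)) → rootNumber w (E 13 128) = 1 := by
  refine ⟨?_, corank_of _ (fun _ _ h => h), fun p _ => ⟨Pool.Agent.U845.PA.w0 p, (local_iff _).2
    (Pool.Agent.U845.PA.exists_local p)⟩, s_X14, fun w hw => ?_⟩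
  swap
  · have hw' : ∀ (p : ℕ) [Fact p.Prime], Pool.Agent.U845.PA.LocalRootNumber p (w p) :=
      fun p _ => (local_iff _).1 (hw p)
    rw [root_eq]
    exact Pool.Agent.U845.PA.root_X14 hw'
  obtain ⟨R, hR, B, hB⟩ := Pool.Agent.U974.GC.main F hF m N hN
  refine ⟨R, fun e he => ⟨(hR e he).1, (hR e he).2.1, fun q hq hqR => ((hR e he).2.2 q hq hqR).2⟩, B,
    fun δ hδ => ?_⟩
  obtain ⟨c, hc, x₀, hx⟩ := hB δ hδ
  refine ⟨c, hc, x₀, fun x hxx W hW hWc => (hx x hxx W hW hWc).trans ?_⟩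
  have hfin : {h : Fin m → ℕ | StrictMono h ∧ (∀ i, h i ∈ W) ∧ AllGraphs F N B R h}.Finite := by
    refine (Fintype.piFinset (fun _ : Fin m => W)).finite_toSet.subset ?_
    rintro h ⟨-, h2, -⟩
    rw [Finset.mem_coe, Fintype.mem_piFinset]
    exact h2
  have hsub : {h : Fin m → ℕ | StrictMono h ∧ (∀ i, h i ∈ W) ∧ Pool.Agent.U974.GC.AllCfg F N B R h} ⊆
      {h : Fin m → ℕ | StrictMono h ∧ (∀ i, h i ∈ W) ∧ AllGraphs F N B R h} := by
    rintro h ⟨g1, g2, g3⟩
    refine ⟨g1, g2, fun G => ?_⟩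
    obtain ⟨θ, hθ⟩ := g3 G
    have hex : ∀ e : ℤ × ℤ, ∃ β : Bool, θ e + (if β then 1 else 0) = 1 ∧
        θ e + (if !β then 1 else 0) = 0 := fun e => Pool.Agent.U974.TW.exists_flip (θ e)
    choose β hβ1 hβ2 using hex
    refine ⟨fun e => if β e then R e else 1, fun e => if (!(β e)) then R e else 1, fun e => ?_,
      fun Y => (hθ Y).mono ?_⟩
    · by_cases hbe : β e = true
      · right
        simp only [hbe]
        simp
      · left
        have hbe2 : β e = false := by simpa using hbe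
        simp only [hbe2]
        simp
    · rintro n ⟨k1, k2, k3⟩
      refine ⟨k1, k2, fun e he => ?_⟩
      obtain ⟨nb, nc⟩ := hF e he
      exact ⟨law_cfg nb nc (k3 e he) (β e) (hβ1 e), law_cfg nb nc (k3 e he) (!(β e)) (hβ2 e)⟩
  exact_mod_cast Set.ncard_le_ncard hsub hfin

end Pool.Agent.Results.MP_577099_nt.ParityInPrimeTuples
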