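import Mathlib
import Pool.Agent.Results.MP_577099_nt.ParityInTwistClasses
import Pool.Agent.Results.MP_6073f3_nt.SuccessivePrimeTwists

/-!
# The parity conjecture for the successive prime twists of every member of the twist classes

`E : y² = x³ + a x² + b x`, neither `b` nor `c = a² - 4 b` a square; `E_N : y² = x³ + a N x² + b N² x`, the
quadratic twist by `N`. A prime is split if it is `1` modulo `8` and a nonzero square modulo all the odd primes
dividing `b c`, and inert if it is odd and neither `b` nor `c` is a square modulo it. `D` is ANY (fixed) product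
of different split and inert primes, and `E_D` is twisted successively by primes `p_k, …, p_0` in given residue
classes of split or inert primes modulo `8 |b c|` (`N = D p_k ⋯ p_0`), the last one inert. We take means over
the primes `p_0` up to `X`, `X → ∞`, then over `p_1`, …, at last over `p_k`.

Let `E` have root number `1` and Selmer rank `s(E) = 0` (descent by the isogenies of degree two). We prove for
every `D`: the iterated density of the `N` for which `E_N(ℚ)` is finite, `Ш(E_N/ℚ)[2^∞] = 0` and the parity
conjecture `(-1)^{rank E_N(ℚ)} = w(E_N)` holds exists, and is the probability of `0` after `t` steps of the Markov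
chain `r → r - 1` with probability `1 - 2 ^ -r`, `r → r` and `r → r + 1` with probability `2 ^ -(r + 1)`, `t` the
number of the split primes among `p_1, …, p_k`; the first law is the law of the corank of the explicit matrix of `D`
plus a random diagonal matrix over the field with two elements. It is at least `2 ^ -(n + t)`, `n` the number of
the split prime factors of `D`, and differs from `c_0 = ∏ (1 - 2^{-(2i+1)}) = 0.4194…` by at most
`∏_{1 ≤ i ≤ n} (2 ^ i - 1) / 2 ^ t`. So the parity conjecture holds for a positive proportion of the prime twists of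
EVERY member.

For all `E` (any Selmer rank and any root number) the joint iterated law of the pair (Selmer rank of `E_N`, root
number of `E_N`) is the law of `(s(E) + 2 r, w(E))`: so the parity of the Selmer rank agrees with the root number for
one twist if and only if it does for all of them, and `rank E_N ≤ s(E) + 2 d` with the lower density
`P(0) + ⋯ + P(d)`.

As in helper845's `ParityInTwistClasses` (whose definitions we use) the local root numbers are any functions with the
six well known properties `LocalRootNumber`.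

Authors: helper150 (this file and `U150/XG`), helper845 (root numbers of the twists, `U845/PA`), helper687 (the
Markov chain of the symmetric matrices over the field with two elements, `U687/Q2`), helper115, helper295,
helper439, helper2, helper643, helper674, helper234, helper158, helper998, helper798, helper756, helper79,
helper958, helper388, helper796, helper739, helper80 (the descent for the class of the twists, projects GD and GE).
-/

set_option autoImplicit false

open scoped Classical ENNReal

namespace Pool.Agent.Results.MP_577099_nt.ParityOfPrimeTwists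

open Filter
open Pool.Agent.Results.MP_577099_nt.ParityInTwistClasses (LocalRootNumber rootNumber rank)
open Pool.Agent.Results.MP_6073f3_nt.SuccessivePrimeTwists
  (E s TrivialTwo Res Inert Member Given Density indicator lowerMean split chain splitSteps c)

/-- the parity conjecture for `W` -/
def Parity (w : ∀ (p : ℕ) [Fact p.Prime], WeierstrassCurve ℚ_[p] → ℤ) (W : WeierstrassCurve ℚ) :
    Prop := (-1) ^ rank W = rootNumber w W

section proof

theorem class_iff {a b : ℤ} {D : ℕ} (h : Pool.Agent.U115.GE.Class a b D) :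
    ParityInTwistClasses.Class a b D := (ParityInTwistClasses.class_iff a b D).2 h

theorem root_tw {w : ∀ (p : ℕ) [Fact p.Prime], WeierstrassCurve ℚ_[p] → ℤ}
    (hw : ∀ (p : ℕ) [Fact p.Prime], LocalRootNumber p (w p)) {a b : ℤ} (hb : b ≠ 0)
    (hc : a ^ 2 - 4 * b ≠ 0) {N : ℕ} (hN : Pool.Agent.U115.GE.Class a b N) :
    rootNumber w (E (a * N) (b * N ^ 2)) = rootNumber w (E a b) :=
  ((ParityInTwistClasses.result.2.1 w hw).1 a b hb hc).2 N (class_iff hN)

theorem parity_of {w : ∀ (p : ℕ) [Fact p.Prime], WeierstrassCurve ℚ_[p] → ℤ}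
    (hw : ∀ (p : ℕ) [Fact p.Prime], LocalRootNumber p (w p)) {a b : ℤ} (hb : b ≠ 0)
    (hc : a ^ 2 - 4 * b ≠ 0) (h1 : rootNumber w (E a b) = 1) {N : ℕ}
    (hN : Pool.Agent.U115.GE.Class a b N) (hT : TrivialTwo (E (a * N) (b * N ^ 2))) :
    Parity w (E (a * N) (b * N ^ 2)) := by
  unfold Parity
  rw [ParityInTwistClasses.rank_fin _ hT.1, pow_zero, root_tw hw hb hc hN, h1]

end proof

/-- **The parity conjecture for the successive prime twists.** -/
theorem result :
    (∀ (p : ℕ) [Fact p.Prime], ∃ w : WeierstrassCurve ℚ_[p] → ℤ, LocalRootNumber p w) ∧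
    (∀ w : ∀ (p : ℕ) [Fact p.Prime], WeierstrassCurve ℚ_[p] → ℤ,
      (∀ (p : ℕ) [Fact p.Prime], LocalRootNumber p (w p)) →
      (∀ a b : ℤ, ¬ IsSquare b → ¬ IsSquare (a ^ 2 - 4 * b) → ∀ q : ℕ → ℕ, Given a b q →
        ∀ (k D : ℕ), Member a b D → Res a b (D * ∏ i ∈ Finset.range (k + 1), q i) →
        (∀ r : ℕ, Density a b q (fun N => s (a * N) (b * N ^ 2) = s a b + 2 * r ∧
          rootNumber w (E (a * N) (b * N ^ 2)) = rootNumber w (E a b)) k D (chain a b q k D r)) ∧
        (s a b = 0 → rootNumber w (E a b) = 1 →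
          Density a b q (fun N => TrivialTwo (E (a * N) (b * N ^ 2)) ∧
            Parity w (E (a * N) (b * N ^ 2))) k D (chain a b q k D 0) ∧
          ENNReal.ofReal (chain a b q k D 0) ≤
            lowerMean a b q (indicator fun N => Parity w (E (a * N) (b * N ^ 2))) (k + 1) D) ∧
        (1 / 2 : ℝ) ^ ((split a b D).card + splitSteps a b q k) ≤ chain a b q k D 0 ∧
        |chain a b q k D 0 - c 0| ≤
          (∏ i ∈ Finset.range (split a b D).card, ((2 : ℝ) ^ (i + 1) - 1)) /
            2 ^ splitSteps a b q k) ∧
      rootNumber w (E 13 128) = 1) ∧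
    s 13 128 = 0 ∧ ¬ IsSquare (128 : ℤ) ∧ ¬ IsSquare (13 ^ 2 - 4 * 128 : ℤ) ∧
    0.4194 < c 0 ∧ c 0 < 0.4195 := by
  have hex : ∃ q : ℕ → ℕ, Given 13 128 q := by
    obtain ⟨r, hr⟩ : ∃ r : ℕ, r.Prime ∧ Inert 13 128 r := by
      refine ⟨5, by norm_num, by norm_num, ?_, ?_⟩
      · rintro ⟨x, hx⟩
        revert x
        decide
      · rintro ⟨x, hx⟩
        revert x
        decide
    exact ⟨fun _ => r, fun _ => ⟨hr.1, Or.inr hr.2⟩, hr.2⟩
  have h128 : ¬ IsSquare (128 : ℤ) := ParityInTwistClasses.result.2.2.1
  have h343 : ¬ IsSquare (13 ^ 2 - 4 * 128 : ℤ) := ParityInTwistClasses.result.2.2.2.1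
  obtain ⟨q₀, hq₀⟩ := hex
  obtain ⟨-, -, -, l1, l2, l3⟩ :=
    Pool.Agent.Results.MP_6073f3_nt.SuccessivePrimeTwists.result 13 128 h128 h343 q₀ hq₀
  refine ⟨ParityInTwistClasses.result.1, fun w hw => ⟨fun a b hb hc q hq k D hD hR => ?_,
    (ParityInTwistClasses.result.2.1 w hw).2.2⟩, l3, h128, h343, l1, l2⟩
  have hb0 : b ≠ 0 := by
    rintro rfl
    exact hb ⟨0, by norm_num⟩
  have hc0 : a ^ 2 - 4 * b ≠ 0 := by
    intro h
    exact hc ⟨0, by rw [h]; norm_num⟩
  obtain ⟨g1, -⟩ := Pool.Agent.Results.MP_6073f3_nt.SuccessivePrimeTwists.result a b hb hc q hq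
  obtain ⟨-, -, -, g4, g5⟩ := g1 k D hD hR
  refine ⟨fun r => ?_, fun hs hr => ⟨?_, ?_⟩, g4, ?_⟩
  · refine Pool.Agent.Results.MP_6073f3_nt.SuccessivePrimeTwists.dens_of hb hc hq _ r
      (fun N hN => ?_) k hD hR
    rw [(Pool.Agent.Results.MP_6073f3_nt.SuccessivePrimeTwists.key hb0 hc0 hN).1]
    constructor
    · rintro ⟨h1, -⟩
      omega
    · intro h1
      exact ⟨by omega, root_tw hw hb0 hc0 hN⟩
  · refine Pool.Agent.Results.MP_6073f3_nt.SuccessivePrimeTwists.dens_of hb hc hq _ 0
      (fun N hN => ?_) k hD hR
    rw [← Pool.Agent.Results.MP_6073f3_nt.SuccessivePrimeTwists.triv hb hc hs hN]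
    exact ⟨fun h => h.1, fun h => ⟨h, parity_of hw hb0 hc0 hr hN h⟩⟩
  · obtain ⟨P, h⟩ := Pool.Agent.U150.XG.exists_en (Pool.Agent.U115.GE.Res a b) D
    have h1 := Pool.Agent.Results.MP_6073f3_nt.SuccessivePrimeTwists.low_of hb hc hq
      (indicator fun N => Parity w (E (a * N) (b * N ^ 2))) (Pool.Agent.U687.Q2.pt 0)
      (Pool.Agent.U687.Q2.pt_nonneg 0) (fun N hN => by
        unfold indicator Pool.Agent.U687.Q2.pt
        by_cases h0 : Pool.Agent.U115.GE.cork a b N = 0
        · rw [if_pos h0, if_pos (parity_of hw hb0 hc0 hr hN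
            ((Pool.Agent.Results.MP_6073f3_nt.SuccessivePrimeTwists.triv hb hc hs hN).2 h0)),
            ENNReal.ofReal_one]
        · rw [if_neg h0, ENNReal.ofReal_zero]
          exact zero_le) k hD hR h
    rwa [Pool.Agent.U150.XG.law_eq, ←
      Pool.Agent.Results.MP_6073f3_nt.SuccessivePrimeTwists.chain_eq q k h] at h1
  · have h6 := g5 1
    rwa [Finset.sum_range_one, Finset.sum_range_one] at h6

end Pool.Agent.Results.MP_577099_nt.ParityOfPrimeTwists
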